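import Pool.Agent.H73.GWQ.Stmts2

/-! Row ISO of the board gwq. -/

set_option autoImplicit false

open Classical

namespace GWQ

theorem ISO (G V : Type*) [Group G] [MulAction G V] : ISOStmt G V := by
  intro X hX hadj
  have key : ∀ (g : G) (u v : V), X.dist (g • u) (g • v) ≤ X.dist u v := by
    intro g u v
    obtain ⟨p, hp⟩ := hX.exists_walk_length_eq_dist u v
    let φ : X →g X := ⟨fun x => g • x, fun h => hadj g _ _ h⟩
    have h := SimpleGraph.dist_le (p.map φ)
    rw [SimpleGraph.Walk.length_map, hp] at h
    exact h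
  intro g u v
  refine le_antisymm (key g u v) ?_
  have h := key g⁻¹ (g • u) (g • v)
  rwa [inv_smul_smul, inv_smul_smul] at h

end GWQ
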