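import Pool.Agent.H73.GWQ.Stmts

/-! Row PUQ of the board gwq. -/

set_option autoImplicit false

open Classical

namespace GWQ

variable {ι G V : Type*} [Fintype ι] [Group G]

omit [Fintype ι] in
lemma PUQ_len (b : List ι) : ∀ F F' : List (ι × List ι),
    F.map Prod.snd = F'.map Prod.snd → (GWT.full F b).length = (GWT.full F' b).length
  | [], [], _ => rfl
  | [], _ :: _, h => by simp at h
  | _ :: _, [], h => by simp at h
  | f :: F, f' :: F', h => by
    simp only [List.map_cons, List.cons.injEq] at h
    have := PUQ_len b F F' h.2
    simp only [GWT.full, List.length_append, List.length_cons, this, h.1]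

theorem PUQ (C : QCode ι G V) (h1 : UNIStmt C) : PUQStmt C := by
  intro w F
  induction F with
  | nil =>
    intro F' acc b hF _
    cases F' with
    | nil => rfl
    | cons f' F' => simp at hF
  | cons f F ih =>
    intro F' acc b hF hc
    cases F' with
    | nil => simp at hF
    | cons f' F' =>
      simp only [List.map_cons, List.cons.injEq] at hF
      obtain ⟨h2, h3⟩ := hF
      have hl := PUQ_len b F F' h3
      unfold pop at hc ⊢
      rw [← h2, ← hl] at hc ⊢
      by_cases hb : RB C f.1 (tl C w (acc ++ f.2) (GWT.full F b).length)
      · by_cases hb' : RB C f'.1 (tl C w (acc ++ f.2) (GWT.full F b).length)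
        · rw [if_pos hb, if_pos hb'] at hc ⊢
          have h4 : f.1 = f'.1 := h1.2.1 _ _ _ hb hb'
          rw [← h4] at hc ⊢
          exact ih F' _ b h3 (Nat.succ_injective hc)
        · rw [if_pos hb, if_neg hb'] at hc
          exact absurd hc (Nat.succ_ne_zero _)
      · by_cases hb' : RB C f'.1 (tl C w (acc ++ f.2) (GWT.full F b).length)
        · rw [if_neg hb, if_pos hb'] at hc
          exact absurd hc.symm (Nat.succ_ne_zero _)
        · rw [if_neg hb, if_neg hb']
          simp only [GWT.mask, List.map_cons, h3]

end GWQ
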